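import Pool.Agent.Helper62.DSH.StA

set_option autoImplicit false

open Set Filter Topology MeasureTheory
open Helper62.LH Helper62.DSH
open scoped ContDiff ENNReal

noncomputable section

namespace Pool.Agent.Helper98.DSH

variable {n : ℕ}

private theorem coef {g : E n → Bl n} {F : Fin n → E n → E n} {x : E n} (h : Onb g x (fun a => F a x))
    (c : Fin n → ℝ) (l : Fin n) : g x (∑ m, c m • F m x) (F l x) = c l := by
  rw [map_sum, ContinuousLinearMap.sum_apply]
  have h1 : ∀ m, (g x (c m • F m x)) (F l x) = c m * (if m = l then 1 else 0) := by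
    intro m
    rw [map_smul, ContinuousLinearMap.smul_apply, smul_eq_mul]
    have := h.orth m l
    rw [this]
  rw [Finset.sum_congr rfl fun m _ => h1 m]
  simp

/-- the first expression of the second covariant derivative -/
private theorem expr1 {Γ : E n → Bm n} {F : Fin n → E n → E n} (hΓ : ContDiff ℝ ∞ Γ)
    (hF : ∀ a, ContDiff ℝ ∞ (F a)) (b c : Fin n) (x w : E n) :
    fderiv ℝ (fun y => fderiv ℝ (F c) y (F b y) + Γ y (F b y) (F c y)) x w =
      fderiv ℝ (fderiv ℝ (F c)) x w (F b x) + fderiv ℝ (F c) x (fderiv ℝ (F b) x w) +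
      (fderiv ℝ Γ x w (F b x) (F c x) + Γ x (fderiv ℝ (F b) x w) (F c x) +
        Γ x (F b x) (fderiv ℝ (F c) x w)) := by
  have hFd : ∀ a, HasFDerivAt (F a) (fderiv ℝ (F a) x) x := fun a =>
    ((hF a).differentiable (by simp)).differentiableAt.hasFDerivAt
  have hF2 : HasFDerivAt (fderiv ℝ (F c)) (fderiv ℝ (fderiv ℝ (F c)) x) x := by
    have h : ContDiff ℝ ∞ (fderiv ℝ (F c)) := (hF c).fderiv_right (by simp)
    exact (h.differentiable (by simp)).differentiableAt.hasFDerivAt
  have hG : HasFDerivAt Γ (fderiv ℝ Γ x) x := (hΓ.differentiable (by simp)).differentiableAt.hasFDerivAt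
  have h1 := hF2.clm_apply (hFd b)
  have h2 := (hG.clm_apply (hFd b)).clm_apply (hFd c)
  have h3 := (h1.add h2).fderiv
  have h4 : fderiv ℝ (fun y => fderiv ℝ (F c) y (F b y) + Γ y (F b y) (F c y)) x = _ := h3
  rw [h4]
  simp only [ContinuousLinearMap.add_apply, ContinuousLinearMap.comp_apply, ContinuousLinearMap.flip_apply]
  abel

private theorem expr2 {F : Fin n → E n → E n} {G : E n → Fin n → Fin n → Fin n → ℝ}
    (hF : ∀ a, ContDiff ℝ ∞ (F a)) (hG : ∀ a b c, ContDiff ℝ ∞ (fun x => G x a b c)) (b c : Fin n) (x w : E n) :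
    fderiv ℝ (fun y => ∑ l, G y b c l • F l y) x w =
      ∑ l, ((fderiv ℝ (fun y => G y b c l) x w) • F l x + G x b c l • fderiv ℝ (F l) x w) := by
  have hFd : ∀ a, HasFDerivAt (F a) (fderiv ℝ (F a) x) x := fun a =>
    ((hF a).differentiable (by simp)).differentiableAt.hasFDerivAt
  have hGd : ∀ l, HasFDerivAt (fun y => G y b c l) (fderiv ℝ (fun y => G y b c l) x) x := fun l =>
    ((hG b c l).differentiable (by simp)).differentiableAt.hasFDerivAt
  have h1 := HasFDerivAt.fun_sum (u := Finset.univ) fun l (_ : l ∈ Finset.univ) => (hGd l).smul (hFd l)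
  have h2 := h1.fderiv
  have h3 : fderiv ℝ (fun y => ∑ l, G y b c l • F l y) x = _ := h2
  rw [h3, ContinuousLinearMap.sum_apply]
  refine Finset.sum_congr rfl fun l _ => ?_
  simp only [ContinuousLinearMap.add_apply, ContinuousLinearMap.smul_apply, ContinuousLinearMap.smulRight_apply]
  abel

/-- The curvature in the frame. -/
theorem hCrv (hChr : StChr) : TCrv := by
  intro n g Γ F G hg hΓ hF x a b c l
  obtain ⟨sΓ, yΓ, -⟩ := hChr n g Γ hg hΓ
  have sF := hF.smF
  have sG := hF.smG
  have cn := hF.cn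
  -- both expressions agree
  have key : ∀ a b : Fin n,
      fderiv ℝ (fderiv ℝ (F c)) x (F a x) (F b x) + fderiv ℝ (F c) x (fderiv ℝ (F b) x (F a x)) +
      (fderiv ℝ Γ x (F a x) (F b x) (F c x) + Γ x (fderiv ℝ (F b) x (F a x)) (F c x) +
        Γ x (F b x) (fderiv ℝ (F c) x (F a x))) +
      Γ x (F a x) (fderiv ℝ (F c) x (F b x) + Γ x (F b x) (F c x)) =
      (∑ l, (fderiv ℝ (fun y => G y b c l) x (F a x)) • F l x) + ∑ m, (∑ l, G x b c l * G x a l m) • F m x := by
    intro a b
    have e1 : (fun y => fderiv ℝ (F c) y (F b y) + Γ y (F b y) (F c y)) = fun y => ∑ l, G y b c l • F l y := by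
      funext y
      exact cn y b c
    rw [← expr1 sΓ sF b c x (F a x), e1, expr2 sF sG b c x (F a x), cn x b c, map_sum, Finset.sum_add_distrib,
      add_assoc, ← Finset.sum_add_distrib]
    congr 1
    have e2 : ∀ l, G x b c l • fderiv ℝ (F l) x (F a x) + Γ x (F a x) (G x b c l • F l x) =
        ∑ m, (G x b c l * G x a l m) • F m x := by
      intro l
      rw [map_smul, ← smul_add, cn x a l, Finset.smul_sum]
      exact Finset.sum_congr rfl fun m _ => smul_smul _ _ _
    rw [Finset.sum_congr rfl fun l _ => e2 l, Finset.sum_comm]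
    exact Finset.sum_congr rfl fun m _ => (Finset.sum_smul).symm
  have hsym : fderiv ℝ (fderiv ℝ (F c)) x (F a x) (F b x) = fderiv ℝ (fderiv ℝ (F c)) x (F b x) (F a x) := by
    have h : IsSymmSndFDerivAt ℝ (F c) x := ((sF c).contDiffAt).isSymmSndFDerivAt (by simp; exact ENat.LEInfty.out)
    exact h (F a x) (F b x)
  have hV : fderiv ℝ (F b) x (F a x) - fderiv ℝ (F a) x (F b x) = ∑ d, (G x a b d - G x b a d) • F d x := by
    have h1 := cn x a b
    have h2 := cn x b a
    rw [yΓ x (F b x) (F a x)] at h2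
    have h3 : ∑ d, (G x a b d - G x b a d) • F d x = ∑ d, G x a b d • F d x - ∑ d, G x b a d • F d x := by
      rw [← Finset.sum_sub_distrib]
      exact Finset.sum_congr rfl fun d _ => sub_smul _ _ _
    rw [h3, ← h1, ← h2]
    abel
  have hW : fderiv ℝ (F c) x (fderiv ℝ (F b) x (F a x) - fderiv ℝ (F a) x (F b x)) +
      Γ x (fderiv ℝ (F b) x (F a x) - fderiv ℝ (F a) x (F b x)) (F c x) =
      ∑ l, (∑ d, (G x a b d - G x b a d) * G x d c l) • F l x := by
    rw [hV, map_sum, map_sum, ContinuousLinearMap.sum_apply, ← Finset.sum_add_distrib]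
    have e2 : ∀ d, fderiv ℝ (F c) x ((G x a b d - G x b a d) • F d x) +
        Γ x ((G x a b d - G x b a d) • F d x) (F c x) =
        ∑ l, ((G x a b d - G x b a d) * G x d c l) • F l x := by
      intro d
      rw [map_smul, map_smul, ContinuousLinearMap.smul_apply, ← smul_add, cn x d c, Finset.smul_sum]
      exact Finset.sum_congr rfl fun m _ => smul_smul _ _ _
    rw [Finset.sum_congr rfl fun l _ => e2 l, Finset.sum_comm]
    exact Finset.sum_congr rfl fun m _ => (Finset.sum_smul).symm
  have hR : Rm Γ x (F a x) (F b x) (F c x) =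
      ((∑ l, (fderiv ℝ (fun y => G y b c l) x (F a x)) • F l x) + ∑ m, (∑ l, G x b c l * G x a l m) • F m x) -
      ((∑ l, (fderiv ℝ (fun y => G y a c l) x (F b x)) • F l x) + ∑ m, (∑ l, G x a c l * G x b l m) • F m x) -
      ∑ l, (∑ d, (G x a b d - G x b a d) * G x d c l) • F l x := by
    rw [← hW, ← key a b, ← key b a, hsym, Rm]
    simp only [map_add, map_sub, ContinuousLinearMap.sub_apply]
    abel
  unfold Rc
  rw [hR]
  simp only [map_add, map_sub, ContinuousLinearMap.sub_apply, ContinuousLinearMap.add_apply]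
  have o := hF.onb x
  rw [coef o, coef o, coef o, coef o, coef o, Finset.sum_sub_distrib]
  ring

end Pool.Agent.Helper98.DSH
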